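import Mathlib
import Pool.Agent.Lib_helper63.CP.Retr

/-!
Hulls of sets of functions, and their retractions.
-/

set_option autoImplicit false

universe u

namespace Pool.Agent.Lib_helper63.CpK

open Set Topology Cardinal

namespace Sys

variable {L Q : Type u} [TopologicalSpace L] [TopologicalSpace Q] (S : Sys L Q)

lemma exists_dense (a : Finset Q) : ∃ D : Set Q, D.Countable ∧
    ∀ q : Q, ∀ F : Finset L, (F : Set L) ⊆ S.pts a → ∀ u : L → Set ℝ,
      (∀ y ∈ F, IsOpen (u y) ∧ S.ev q y ∈ u y) → ∃ d ∈ D, ∀ y ∈ F, S.ev d y ∈ u y := by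
  have hc : (S.pts (a : Set Q)).Countable := S.pts_countable a.countable_toSet
  have := hc.to_subtype
  let ρ : Q → (S.pts (a : Set Q) → ℝ) := fun q y => S.ev q y
  obtain ⟨c, hc1, hc2, hc3⟩ := TopologicalSpace.IsSeparable.exists_countable_dense_subset
    (TopologicalSpace.IsSeparable.of_separableSpace (Set.range ρ))
  have hc2' := hc2.to_subtype
  choose g hg using fun (f : c) => hc1 f.2
  refine ⟨Set.range g, Set.countable_range g, ?_⟩
  intro q F hF u hu
  have hq : ρ q ∈ closure c := hc3 ⟨q, rfl⟩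
  -- neighbourhood of `ρ q`
  let V : Set (S.pts (a : Set Q) → ℝ) := {f | ∀ y : S.pts (a : Set Q), (y : L) ∈ F →
    f y ∈ u y}
  have hV : IsOpen V := by
    have : V = ⋂ y ∈ (Set.Finite.toFinset (s := {y : S.pts (a : Set Q) | (y : L) ∈ F})
      (Set.Finite.preimage Subtype.val_injective.injOn F.finite_toSet)),
        {f : S.pts (a : Set Q) → ℝ | f y ∈ u y} := by
      ext f
      simp [V]
    rw [this]
    apply isOpen_biInter_finset
    intro y hy
    rw [Set.Finite.mem_toFinset] at hy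
    exact (hu y hy).1.preimage (continuous_apply y)
  have hqV : ρ q ∈ V := by
    intro y hy
    exact (hu y hy).2
  obtain ⟨f, hfV, hfc⟩ := mem_closure_iff.mp hq V hV hqV
  refine ⟨g ⟨f, hfc⟩, ⟨⟨f, hfc⟩, rfl⟩, ?_⟩
  intro y hy
  have h1 := hfV ⟨y, hF hy⟩ hy
  have h2 : ρ (g ⟨f, hfc⟩) = f := hg ⟨f, hfc⟩
  rw [← h2] at h1
  exact h1

/-- a countable set of functions that is dense on the points generated by `a` -/
noncomputable def D (a : Finset Q) : Set Q := (S.exists_dense a).choose

lemma D_countable (a : Finset Q) : (S.D a).Countable := (S.exists_dense a).choose_spec.1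

lemma D_dense (a : Finset Q) : ∀ q : Q, ∀ F : Finset L, (F : Set L) ⊆ S.pts a →
    ∀ u : L → Set ℝ, (∀ y ∈ F, IsOpen (u y) ∧ S.ev q y ∈ u y) →
      ∃ d ∈ S.D a, ∀ y ∈ F, S.ev d y ∈ u y := (S.exists_dense a).choose_spec.2

/-- closed sets of functions -/
def Cl (A : Set Q) : Prop := ∀ a : Finset Q, (a : Set Q) ⊆ A → S.D a ⊆ A

/-- one step of the closing-off process -/
def stp (A : Set Q) : Set Q := A ∪ ⋃ a : Finset A, S.D (a.map ⟨Subtype.val, Subtype.val_injective⟩)

/-- stages of the closing-off process -/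
def stage (A : Set Q) (n : ℕ) : Set Q := S.stp^[n] A

lemma stage_succ (A : Set Q) (n : ℕ) : S.stage A (n + 1) = S.stp (S.stage A n) :=
  Function.iterate_succ_apply' _ _ _

/-- the hull -/
def G (A : Set Q) : Set Q := ⋃ n, S.stage A n

lemma stp_subset (A : Set Q) : A ⊆ S.stp A := Set.subset_union_left

lemma D_subset_stp {A : Set Q} {a : Finset Q} (ha : (a : Set Q) ⊆ A) : S.D a ⊆ S.stp A := by
  classical
  intro x hx
  right
  rw [Set.mem_iUnion]
  refine ⟨a.subtype (fun q => q ∈ A), ?_⟩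
  have : (a.subtype (fun q => q ∈ A)).map ⟨Subtype.val, Subtype.val_injective⟩ = a := by
    ext q
    constructor
    · intro h
      rw [Finset.mem_map] at h
      obtain ⟨y, hy, rfl⟩ := h
      exact Finset.mem_subtype.mp hy
    · intro h
      rw [Finset.mem_map]
      exact ⟨⟨q, ha h⟩, Finset.mem_subtype.mpr h, rfl⟩
  rw [this]
  exact hx

lemma stage_mono (A : Set Q) : Monotone (S.stage A) :=
  monotone_nat_of_le_succ (fun n => by rw [S.stage_succ]; exact S.stp_subset _)

lemma subset_G (A : Set Q) : A ⊆ S.G A := Set.subset_iUnion (S.stage A) 0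

lemma exists_stage {A : Set Q} (a : Finset Q) (ha : (a : Set Q) ⊆ S.G A) :
    ∃ n, (a : Set Q) ⊆ S.stage A n := by
  classical
  induction a using Finset.induction_on with
  | empty => exact ⟨0, by simp⟩
  | insert x s _ ih =>
    rw [Finset.coe_insert, Set.insert_subset_iff] at ha
    obtain ⟨n, hn⟩ := ih ha.2
    obtain ⟨m, hm⟩ := Set.mem_iUnion.mp ha.1
    refine ⟨max m n, ?_⟩
    rw [Finset.coe_insert, Set.insert_subset_iff]
    exact ⟨S.stage_mono A (le_max_left _ _) hm, hn.trans (S.stage_mono A (le_max_right _ _))⟩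

lemma Cl_G (A : Set Q) : S.Cl (S.G A) := by
  intro a ha
  obtain ⟨n, hn⟩ := S.exists_stage a ha
  have h := Set.subset_iUnion (S.stage A) (n + 1)
  rw [S.stage_succ] at h
  exact (S.D_subset_stp hn).trans h

lemma stp_subset_of_Cl {A B : Set Q} (hB : S.Cl B) (h : A ⊆ B) : S.stp A ⊆ B := by
  apply Set.union_subset h
  apply Set.iUnion_subset
  intro a
  apply hB
  intro q hq
  rw [Finset.mem_coe, Finset.mem_map] at hq
  obtain ⟨y, -, rfl⟩ := hq
  exact h y.2

lemma G_subset_of_Cl {A B : Set Q} (hB : S.Cl B) (h : A ⊆ B) : S.G A ⊆ B := by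
  apply Set.iUnion_subset
  intro n
  induction n with
  | zero => exact h
  | succ n ih => rw [S.stage_succ]; exact S.stp_subset_of_Cl hB ih

lemma G_mono {A B : Set Q} (h : A ⊆ B) : S.G A ⊆ S.G B :=
  S.G_subset_of_Cl (S.Cl_G B) (h.trans (S.subset_G B))

lemma G_eq_of_Cl {A : Set Q} (hA : S.Cl A) : S.G A = A :=
  (S.G_subset_of_Cl hA subset_rfl).antisymm (S.subset_G A)

/-- a directed union of closed sets is closed -/
lemma Cl_iUnion {ι : Type*} [Nonempty ι] (B : ι → Set Q) (hB : ∀ i, S.Cl (B i))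
    (hd : Directed (· ⊆ ·) B) : S.Cl (⋃ i, B i) := by
  intro a ha
  obtain ⟨i, hi⟩ : ∃ i, (a : Set Q) ⊆ B i := by
    classical
    clear hB
    induction a using Finset.induction_on with
    | empty => exact ⟨Classical.arbitrary ι, by simp⟩
    | insert x s _ ih =>
      rw [Finset.coe_insert, Set.insert_subset_iff] at ha
      obtain ⟨i, hi⟩ := ih ha.2
      obtain ⟨j, hj⟩ := Set.mem_iUnion.mp ha.1
      obtain ⟨k, hk1, hk2⟩ := hd i j
      refine ⟨k, ?_⟩
      rw [Finset.coe_insert, Set.insert_subset_iff]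
      exact ⟨hk2 hj, hi.trans hk1⟩
  exact (hB i a hi).trans (Set.subset_iUnion B i)

lemma card_stp (A : Set Q) (c : Cardinal.{u}) (hc : ℵ₀ ≤ c) (hA : #A ≤ c) : #(S.stp A) ≤ c := by
  refine (mk_union_le _ _).trans (add_le_of_le hc hA ?_)
  refine (mk_iUnion_le_sum_mk).trans ?_
  refine (sum_le_sum _ (fun _ => ℵ₀) (fun a => ?_)).trans ?_
  · exact (S.D_countable _).le_aleph0
  · rw [sum_const, lift_id, lift_id]
    refine mul_le_of_le hc ?_ hc
    rcases finite_or_infinite A with h | h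
    · have : Finite (Finset A) := inferInstance
      exact (mk_le_aleph0 (α := Finset A)).trans hc
    · rw [mk_finset_of_infinite]; exact hA

lemma card_G (A : Set Q) (c : Cardinal.{u}) (hc : ℵ₀ ≤ c) (hA : #A ≤ c) : #(S.G A) ≤ c := by
  have h : ∀ n, #(S.stage A n) ≤ c := by
    intro n
    induction n with
    | zero => exact hA
    | succ n ih => rw [S.stage_succ]; exact S.card_stp _ c hc ih
  have e : S.G A = ⋃ n : ULift.{u} ℕ, S.stage A n.down := by
    apply Set.Subset.antisymm
    · intro x hx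
      obtain ⟨n, hn⟩ := Set.mem_iUnion.mp hx
      exact Set.mem_iUnion.mpr ⟨ULift.up n, hn⟩
    · intro x hx
      obtain ⟨n, hn⟩ := Set.mem_iUnion.mp hx
      exact Set.mem_iUnion.mpr ⟨n.down, hn⟩
  rw [e]
  refine (mk_iUnion_le_sum_mk).trans ?_
  refine (sum_le_sum _ (fun _ => c) (fun n : ULift.{u} ℕ => h n.down)).trans ?_
  rw [sum_const, lift_id, lift_id]
  refine mul_le_of_le hc ?_ le_rfl
  exact (mk_le_aleph0 (α := ULift.{u} ℕ)).trans hc

end Sys

end Pool.Agent.Lib_helper63.CpK
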