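import Mathlib
import Pool.Agent.Lib_helper63.CP.Hull

/-!
The retraction of `Q` and the projection of `C(Q, ℝ)` given by a closed set of functions.
-/

set_option autoImplicit false

universe u

namespace Pool.Agent.Lib_helper63.CpK

open Set Topology

namespace Sys

variable {L Q : Type u} [TopologicalSpace L] [TopologicalSpace Q] (S : Sys L Q)

/-- the point generated by `A` that agrees with `x` on `A` -/
noncomputable def yy (A : Set Q) (x : L) : L := (S.exists_pt A x).choose

lemma yy_mem (A : Set Q) (x : L) : S.yy A x ∈ S.pts A := (S.exists_pt A x).choose_spec.1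

lemma yy_spec (A : Set Q) (x : L) : ∀ a ∈ A, S.ev a x = S.ev a (S.yy A x) :=
  (S.exists_pt A x).choose_spec.2

lemma exists_finset {A : Set Q} (F : Finset L) (hF : (F : Set L) ⊆ S.pts A) :
    ∃ a : Finset Q, (a : Set Q) ⊆ A ∧ (F : Set L) ⊆ S.pts a := by
  classical
  induction F using Finset.induction_on with
  | empty => exact ⟨∅, by simp, by simp⟩
  | insert x s _ ih =>
    rw [Finset.coe_insert, Set.insert_subset_iff] at hF
    obtain ⟨a, ha1, ha2⟩ := ih hF.2
    obtain ⟨b, hb1, hb2⟩ := S.pts_finitary hF.1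
    refine ⟨a ∪ b, ?_, ?_⟩
    · rw [Finset.coe_union]; exact Set.union_subset ha1 hb1
    · rw [Finset.coe_insert, Set.insert_subset_iff, Finset.coe_union]
      exact ⟨S.pts_mono Set.subset_union_right hb2,
        ha2.trans (S.pts_mono Set.subset_union_left)⟩

lemma dense_of_Cl {A : Set Q} (hA : S.Cl A) (q : Q) (F : Finset L) (hF : (F : Set L) ⊆ S.pts A)
    (u : L → Set ℝ) (hu : ∀ y ∈ F, IsOpen (u y) ∧ S.ev q y ∈ u y) :
    ∃ a ∈ A, ∀ y ∈ F, S.ev a y ∈ u y := by
  obtain ⟨a, ha1, ha2⟩ := S.exists_finset F hF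
  obtain ⟨d, hd1, hd2⟩ := S.D_dense a q F ha2 u hu
  exact ⟨d, hA a ha1 hd1, hd2⟩

/-- two points generated by `A` that agree on `A` agree on all of `Q` -/
lemma agree {A : Set Q} (hA : S.Cl A) {y z : L} (hy : y ∈ S.pts A) (hz : z ∈ S.pts A)
    (h : ∀ a ∈ A, S.ev a y = S.ev a z) (q : Q) : S.ev q y = S.ev q z := by
  classical
  by_contra hne
  obtain ⟨u, v, hu, hv, hyu, hzv, huv⟩ := t2_separation hne
  have hyz : y ≠ z := by rintro rfl; exact hne rfl
  obtain ⟨a, ha, ha'⟩ := S.dense_of_Cl hA q {y, z} (by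
    rw [Finset.coe_insert, Finset.coe_singleton]
    rintro w (rfl | rfl)
    · exact hy
    · exact hz) (fun w => if w = y then u else v) (by
      intro w hw
      rw [Finset.mem_insert, Finset.mem_singleton] at hw
      rcases hw with rfl | rfl
      · simp only [if_true]; exact ⟨hu, hyu⟩
      · simp only [hyz.symm, if_false]; exact ⟨hv, hzv⟩)
  have h1 := ha' y (by simp)
  have h2 := ha' z (by simp)
  simp only [if_true] at h1
  simp only [hyz.symm, if_false] at h2
  rw [← h a ha] at h2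
  exact Set.disjoint_left.mp huv h1 h2

variable [CompactSpace Q]

lemma exists_retract {A : Set Q} (hA : S.Cl A) (q : Q) :
    ∃ p : Q, S.ev p = fun x => S.ev q (S.yy A x) := by
  have hclosed : IsClosed (Set.range S.ev) := (isCompact_range S.ev_cont).isClosed
  let ρ : Q → (S.pts A → ℝ) := fun q y => S.ev q y
  let Ψ : (S.pts A → ℝ) → (L → ℝ) := fun h x => h ⟨S.yy A x, S.yy_mem A x⟩
  have hΨ : Continuous Ψ := by fun_prop
  have h1 : ρ q ∈ closure (ρ '' A) := by
    rw [mem_closure_iff]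
    intro o ho hq
    obtain ⟨I, u, hu1, hu2⟩ := isOpen_pi_iff.mp ho (ρ q) hq
    classical
    obtain ⟨a, ha, ha'⟩ := S.dense_of_Cl hA q (I.map ⟨Subtype.val, Subtype.val_injective⟩) (by
      intro w hw
      rw [Finset.mem_coe, Finset.mem_map] at hw
      obtain ⟨y, -, rfl⟩ := hw
      exact y.2) (fun w => if h : w ∈ S.pts A then u ⟨w, h⟩ else Set.univ) (by
      intro w hw
      rw [Finset.mem_map] at hw
      obtain ⟨y, hy, rfl⟩ := hw
      have hy' : (y : L) ∈ S.pts A := y.2
      simp only [Function.Embedding.coeFn_mk, hy', dif_pos]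
      exact hu1 y hy)
    refine ⟨ρ a, hu2 ?_, ⟨a, ha, rfl⟩⟩
    intro y hy
    have h := ha' y (by
      rw [Finset.mem_map]
      exact ⟨y, hy, rfl⟩)
    have hy' : (y : L) ∈ S.pts A := y.2
    simp only [hy', dif_pos] at h
    exact h
  have h2 : Ψ (ρ q) ∈ closure (Ψ '' (ρ '' A)) := image_closure_subset_closure_image hΨ ⟨_, h1, rfl⟩
  have h3 : Ψ '' (ρ '' A) ⊆ Set.range S.ev := by
    rintro _ ⟨_, ⟨a, ha, rfl⟩, rfl⟩
    refine ⟨a, ?_⟩
    funext x
    exact S.yy_spec A x a ha
  have h4 : Ψ (ρ q) ∈ Set.range S.ev := hclosed.closure_subset_iff.mpr h3 h2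
  exact h4

/-- the retraction of `Q` given by `A` -/
noncomputable def r {A : Set Q} (hA : S.Cl A) (q : Q) : Q := (S.exists_retract hA q).choose

lemma r_spec {A : Set Q} (hA : S.Cl A) (q : Q) (x : L) :
    S.ev (S.r hA q) x = S.ev q (S.yy A x) := by
  have := (S.exists_retract hA q).choose_spec
  exact congrFun this x

lemma ev_embedding : IsClosedEmbedding S.ev := S.ev_cont.isClosedEmbedding S.ev_inj

lemma r_cont {A : Set Q} (hA : S.Cl A) : Continuous (S.r hA) := by
  rw [S.ev_embedding.isInducing.continuous_iff]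
  have : S.ev ∘ S.r hA = fun q x => S.ev q (S.yy A x) := by
    funext q x
    exact S.r_spec hA q x
  rw [this]
  apply continuous_pi
  intro x
  exact (continuous_apply (S.yy A x)).comp S.ev_cont

lemma r_on_pts {A : Set Q} (hA : S.Cl A) (q : Q) {y : L} (hy : y ∈ S.pts A) :
    S.ev (S.r hA q) y = S.ev q y := by
  rw [S.r_spec]
  exact S.agree hA (S.yy_mem A y) hy (fun a ha => (S.yy_spec A y a ha).symm) q

lemma r_r {A : Set Q} (hA : S.Cl A) (q : Q) : S.r hA (S.r hA q) = S.r hA q := by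
  apply S.ev_inj
  funext x
  rw [S.r_spec, S.r_on_pts hA _ (S.yy_mem A x), S.r_spec]

/-- comparison of two retractions -/
lemma r_compare {A B : Set Q} (hA : S.Cl A) (hB : S.Cl B) (hAB : A ⊆ B) (x : L)
    (hx : S.yy B x ∈ S.pts A) (q : Q) : S.ev (S.r hA q) x = S.ev (S.r hB q) x := by
  rw [S.r_spec, S.r_spec]
  refine S.agree hA (S.yy_mem A x) hx (fun a ha => ?_) q
  rw [← S.yy_spec A x a ha, ← S.yy_spec B x a (hAB ha)]

/-- the projection of `C(Q, ℝ)` given by `A` -/
noncomputable def P {A : Set Q} (hA : S.Cl A) (f : C(Q, ℝ)) : C(Q, ℝ) :=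
  f.comp ⟨S.r hA, S.r_cont hA⟩

lemma P_apply {A : Set Q} (hA : S.Cl A) (f : C(Q, ℝ)) (q : Q) : S.P hA f q = f (S.r hA q) := rfl

lemma P_P {A : Set Q} (hA : S.Cl A) (f : C(Q, ℝ)) : S.P hA (S.P hA f) = S.P hA f := by
  ext q
  rw [P_apply, P_apply, P_apply, r_r]

lemma P_congr {A B : Set Q} (hA : S.Cl A) (hB : S.Cl B) (h : A = B) (f : C(Q, ℝ)) :
    S.P hA f = S.P hB f := by
  subst h; rfl

lemma norm_P_sub_le {A : Set Q} (hA : S.Cl A) (f g : C(Q, ℝ)) :
    ‖S.P hA f - S.P hA g‖ ≤ ‖f - g‖ := by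
  rw [ContinuousMap.norm_le _ (norm_nonneg _)]
  intro q
  rw [ContinuousMap.sub_apply, P_apply, P_apply, ← ContinuousMap.sub_apply]
  exact ContinuousMap.norm_coe_le_norm _ _

/-- evaluation at a point of `L` as a continuous function on `Q` -/
noncomputable def e (x : L) : C(Q, ℝ) := ⟨fun q => S.ev q x, (continuous_apply x).comp S.ev_cont⟩

/-- Let `B i` be an increasing family of closed sets with union `A`, indexed by a directed
preorder.  Then `P (B i) f` converges to `P A f`. -/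
theorem converge {ι : Type*} [Preorder ι] [IsDirectedOrder ι] [Nonempty ι] (B : ι → Set Q)
    (hB : ∀ i, S.Cl (B i)) (hmono : Monotone B) {A : Set Q} (hA : S.Cl A)
    (hAB : A = ⋃ i, B i) (f : C(Q, ℝ)) (ε : ℝ) (hε : 0 < ε) :
    ∃ i, ∀ j, i ≤ j → ‖S.P (hB j) f - S.P hA f‖ ≤ ε := by
  -- the subalgebra of eventually constant functions
  let 𝒜 : Subalgebra ℝ C(Q, ℝ) :=
    { carrier := {g | ∃ i, ∀ j, i ≤ j → S.P (hB j) g = S.P hA g}
      mul_mem' := by
        rintro g h ⟨i, hi⟩ ⟨j, hj⟩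
        obtain ⟨k, hk1, hk2⟩ := directed_of (· ≤ ·) i j
        refine ⟨k, fun l hl => ?_⟩
        ext q
        have h1 := congrArg (fun f : C(Q, ℝ) => f q) (hi l (hk1.trans hl))
        have h2 := congrArg (fun f : C(Q, ℝ) => f q) (hj l (hk2.trans hl))
        simp only [P_apply] at h1 h2
        rw [P_apply, P_apply, ContinuousMap.mul_apply, ContinuousMap.mul_apply, h1, h2]
      add_mem' := by
        rintro g h ⟨i, hi⟩ ⟨j, hj⟩
        obtain ⟨k, hk1, hk2⟩ := directed_of (· ≤ ·) i j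
        refine ⟨k, fun l hl => ?_⟩
        ext q
        have h1 := congrArg (fun f : C(Q, ℝ) => f q) (hi l (hk1.trans hl))
        have h2 := congrArg (fun f : C(Q, ℝ) => f q) (hj l (hk2.trans hl))
        simp only [P_apply] at h1 h2
        rw [P_apply, P_apply, ContinuousMap.add_apply, ContinuousMap.add_apply, h1, h2]
      algebraMap_mem' := by
        intro c
        exact ⟨Classical.arbitrary ι, fun j _ => by ext q; rfl⟩ }
  have hsep : 𝒜.SeparatesPoints := by
    intro p q hpq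
    have : S.ev p ≠ S.ev q := fun h => hpq (S.ev_inj h)
    obtain ⟨x, hx⟩ := Function.ne_iff.mp this
    refine ⟨S.e x, ⟨S.e x, ?_, rfl⟩, hx⟩
    have hy := S.yy_mem A x
    rw [hAB] at hy
    obtain ⟨a, ha1, ha2⟩ := S.pts_finitary hy
    obtain ⟨i, hi⟩ : ∃ i, (a : Set Q) ⊆ B i := by
      classical
      clear ha2
      induction a using Finset.induction_on with
      | empty => exact ⟨Classical.arbitrary ι, by simp⟩
      | insert x s _ ih =>
        rw [Finset.coe_insert, Set.insert_subset_iff] at ha1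
        obtain ⟨i, hi⟩ := ih ha1.2
        obtain ⟨j, hj⟩ := Set.mem_iUnion.mp ha1.1
        obtain ⟨k, hk1, hk2⟩ := directed_of (· ≤ ·) i j
        refine ⟨k, ?_⟩
        rw [Finset.coe_insert, Set.insert_subset_iff]
        exact ⟨hmono hk2 hj, hi.trans (hmono hk1)⟩
    refine ⟨i, fun j hij => ?_⟩
    ext q
    rw [P_apply, P_apply]
    refine S.r_compare (hB j) hA ?_ x ?_ q
    · rw [hAB]; exact Set.subset_iUnion B j
    · have h1 := S.pts_mono (hi.trans (hmono hij)) ha2
      rw [← hAB] at h1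
      exact h1
  have htop := ContinuousMap.subalgebra_topologicalClosure_eq_top_of_separatesPoints 𝒜 hsep
  have hf : f ∈ closure (𝒜 : Set C(Q, ℝ)) := by
    have : f ∈ 𝒜.topologicalClosure := by rw [htop]; trivial
    exact this
  obtain ⟨g, ⟨i, hi⟩, hg⟩ := Metric.mem_closure_iff.mp hf (ε / 2) (by positivity)
  refine ⟨i, fun j hj => ?_⟩
  have h1 := S.norm_P_sub_le (hB j) f g
  have h2 := S.norm_P_sub_le hA g f
  rw [dist_eq_norm] at hg
  have h3 : ‖g - f‖ < ε / 2 := by rw [norm_sub_rev]; exact hg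
  have h4 : S.P (hB j) f - S.P hA f = (S.P (hB j) f - S.P (hB j) g) + (S.P hA g - S.P hA f) := by
    rw [hi j hj]; abel
  rw [h4]
  refine (norm_add_le _ _).trans ?_
  linarith

end Sys

end Pool.Agent.Lib_helper63.CpK
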