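import Mathlib
import Pool.Agent.Lib_helper63.CP.SLD

/-!
The induction: `C(Q, ℝ)` has a countable decomposition into sets of small local diameter.
-/

set_option autoImplicit false

universe u

namespace Pool.Agent.Lib_helper63.CpK

open Set Topology Cardinal

namespace Sys

variable {L Q : Type u} [TopologicalSpace L] [TopologicalSpace Q] (S : Sys L Q) [CompactSpace Q]

theorem sld_step {A : Set Q} (hA : S.Cl A) (hunc : ℵ₀ < #A)
    (ih : ∀ (B : Set Q) (hB : S.Cl B), #B < #A → SLD {f : C(Q, ℝ) | S.P hB f = f}) :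
    SLD {f : C(Q, ℝ) | S.P hA f = f} := by
  classical
  intro ε₀ hε₀
  obtain ⟨ε, hεdef⟩ : ∃ ε, ε = ε₀ / 3 := ⟨_, rfl⟩
  have hε : 0 < ε := by rw [hεdef]; positivity
  obtain ⟨r, wo, hr⟩ := Cardinal.exists_ord_eq A
  obtain ⟨κ, hκ⟩ : ∃ κ : Ordinal.{u}, κ = (#A).ord := ⟨_, rfl⟩
  let T : Ordinal.{u} → Set Q := fun α => {a | ∃ h : a ∈ A, Ordinal.typein r ⟨a, h⟩ < α}
  have hTmono : Monotone T := by
    intro α β hαβ a ha
    obtain ⟨h, ha⟩ := ha
    exact ⟨h, ha.trans_le hαβ⟩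
  have hTA : ∀ α, T α ⊆ A := by
    intro α a ha
    obtain ⟨h, ha⟩ := ha
    exact h
  have hTtop : ∀ α, κ ≤ α → T α = A := by
    intro α hα
    apply Set.Subset.antisymm (hTA α)
    intro a ha
    refine ⟨ha, ?_⟩
    refine lt_of_lt_of_le (Ordinal.typein_lt_type r _) ?_
    rw [← hr, ← hκ]
    exact hα
  have hTcard : ∀ α, α < κ → #(T α) < #A := by
    intro α hα
    have h1 : Function.Injective (fun a : T α => (⟨Ordinal.typein r ⟨a.1, a.2.choose⟩,
        a.2.choose_spec⟩ : Set.Iio α)) := by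
      intro a b hab
      have h2 := congrArg Subtype.val hab
      have h3 := Ordinal.typein_injective r h2
      have h4 := congrArg (Subtype.val) h3
      exact Subtype.ext h4
    have h2 := Cardinal.lift_mk_le_lift_mk_of_injective h1
    rw [Cardinal.mk_Iio_ordinal, Cardinal.lift_lift, Cardinal.lift_le] at h2
    refine lt_of_le_of_lt h2 ?_
    rw [← Cardinal.lt_ord, ← hκ]
    exact hα
  have hGcard : ∀ α, α < κ → #(S.G (T α)) < #A := by
    intro α hα
    refine lt_of_le_of_lt (S.card_G (T α) (max ℵ₀ #(T α)) (le_max_left _ _) (le_max_right _ _)) ?_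
    exact max_lt hunc (hTcard α hα)
  let PP : Ordinal.{u} → C(Q, ℝ) → C(Q, ℝ) := fun α => S.P (S.Cl_G (T α))
  have hend : ∀ f : C(Q, ℝ), S.P hA f = f → ∀ α, κ ≤ α → PP α f = f := by
    intro f hf α hα
    have h1 : S.G (T α) = A := by
      rw [hTtop α hα]
      exact S.G_eq_of_Cl hA
    have h2 : PP α f = S.P hA f := S.P_congr _ _ h1 f
    rw [h2, hf]
  have hlim : ∀ f : C(Q, ℝ), ∀ l : Ordinal.{u}, Order.IsSuccLimit l → ∀ ε : ℝ, 0 < ε →
      ∃ β < l, ∀ α, β ≤ α → α < l → ‖PP α f - PP l f‖ ≤ ε := by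
    intro f l hl η hη
    have h0 : (0 : Ordinal.{u}) < l := hl.bot_lt
    have : Nonempty (Set.Iio l) := ⟨⟨0, h0⟩⟩
    have hmono : Monotone (fun i : Set.Iio l => S.G (T i.1)) := by
      intro i j hij
      exact S.G_mono (hTmono hij)
    have hU : S.G (T l) = ⋃ i : Set.Iio l, S.G (T i.1) := by
      apply Set.Subset.antisymm
      · apply S.G_subset_of_Cl
        · apply S.Cl_iUnion _ (fun i => S.Cl_G _)
          exact hmono.directed_le
        · intro a ha
          obtain ⟨h, ha⟩ := ha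
          rw [Set.mem_iUnion]
          refine ⟨⟨Ordinal.typein r ⟨a, h⟩ + 1, hl.add_one_lt ha⟩, ?_⟩
          apply S.subset_G
          exact ⟨h, lt_add_one _⟩
      · apply Set.iUnion_subset
        intro i
        exact S.G_mono (hTmono (le_of_lt i.2))
    obtain ⟨i, hi⟩ := S.converge (fun i : Set.Iio l => S.G (T i.1)) (fun i => S.Cl_G _) hmono
      (S.Cl_G (T l)) hU f η hη
    refine ⟨i.1, i.2, fun α hα hαl => ?_⟩
    exact hi ⟨α, hαl⟩ hα
  have hκlim : Order.IsSuccLimit κ := by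
    rw [hκ]; exact Cardinal.isSuccLimit_ord hunc.le
  have hκ0 : 0 < κ := hκlim.bot_lt
  -- labels for the pieces
  have ih' : ∀ α : Ordinal.{u}, ∃ lab : C(Q, ℝ) → ℕ, α < κ → ∀ f : C(Q, ℝ), PP α f = f →
      ∃ V : Set (Q → ℝ), IsOpen V ∧ ⇑f ∈ V ∧ ∀ g : C(Q, ℝ), PP α g = g → ⇑g ∈ V →
        lab g = lab f → ‖f - g‖ ≤ ε := by
    intro α
    by_cases hα : α < κ
    · obtain ⟨lab, hlab⟩ := ih (S.G (T α)) (S.Cl_G _) (hGcard α hα) ε hε
      exact ⟨lab, fun _ => hlab⟩
    · exact ⟨fun _ => 0, fun h => absurd h hα⟩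
  choose lb hlb using ih'
  -- the increasing sequence
  let δ : ℕ → ℝ := fun n => ε - ε / (n + 2)
  have hδ : StrictMono δ := by
    apply strictMono_nat_of_lt_succ
    intro n
    have h1 : ε / ((n : ℝ) + 1 + 2) < ε / (n + 2) := by
      apply div_lt_div_of_pos_left hε (by positivity)
      linarith
    have h2 : δ n = ε - ε / (n + 2) := rfl
    have h3 : δ (n + 1) = ε - ε / (n + 1 + 2) := by
      show ε - ε / (((n + 1 : ℕ) : ℝ) + 2) = _
      push_cast
      ring
    rw [h2, h3]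
    linarith
  have hδ0 : 0 < δ 0 := by
    show 0 < ε - ε / (((0 : ℕ) : ℝ) + 2)
    rw [Nat.cast_zero, zero_add]
    linarith
  have hδε : ∀ n, δ n ≤ ε := by
    intro n
    have h1 : 0 < ε / ((n : ℝ) + 2) := by positivity
    show ε - ε / (n + 2) ≤ ε
    linarith
  have hgap : ∀ f : C(Q, ℝ), ∃ p : ℕ × Ordinal.{u}, S.P hA f = f → ¬ ‖f - PP 0 f‖ ≤ ε →
      p.2 < κ ∧ δ (p.1 + 1) < ‖f - PP p.2 f‖ ∧ ∀ γ', p.2 < γ' → ‖f - PP γ' f‖ ≤ δ p.1 := by
    intro f
    by_cases hf : S.P hA f = f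
    · by_cases hf' : ‖f - PP 0 f‖ ≤ ε
      · exact ⟨(0, 0), fun _ h => absurd hf' h⟩
      · obtain ⟨n, γ, h⟩ := exists_gap PP κ f (hend f hf) (hlim f) δ hδ hδ0 ε hδε hf'
        exact ⟨(n, γ), fun _ _ => h⟩
    · exact ⟨(0, 0), fun h => absurd h hf⟩
  choose p hp using hgap
  let J : C(Q, ℝ) → ℕ → Set Ordinal.{u} := fun f n => jumps PP (δ (n + 1) - δ n) f
  let lab : C(Q, ℝ) → ℕ := fun f => Encodable.encode
    (if ‖f - PP 0 f‖ ≤ ε then ((0, lb 0 (PP 0 f), 0, 0) : ℕ × ℕ × ℕ × ℕ)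
    else ((p f).1 + 1, lb ((p f).2 + 1) (PP ((p f).2 + 1) f), (J f (p f).1).ncard,
      {α ∈ J f (p f).1 | α < (p f).2}.ncard))
  have hPPid : ∀ α f, PP α (PP α f) = PP α f := fun α f => S.P_P _ f
  have hfin : ∀ f n, S.P hA f = f → (J f n).Finite := by
    intro f n hf
    apply jumps_finite PP κ f _ (hlim f)
    · exact sub_pos.mpr (hδ (Nat.lt_succ_self n))
    · intro α hα
      rw [hend f hf α hα, hend f hf _ (hα.trans (lt_add_one α).le)]
  refine ⟨lab, fun f hf => ?_⟩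
  by_cases hf0 : ‖f - PP 0 f‖ ≤ ε
  · obtain ⟨V, hV1, hV2, hV3⟩ := hlb 0 hκ0 (PP 0 f) (hPPid 0 f)
    refine ⟨(fun h : Q → ℝ => h ∘ S.r (S.Cl_G (T 0))) ⁻¹' V, ?_, hV2, ?_⟩
    · apply hV1.preimage
      fun_prop
    · intro g hg hgV hlabg
      have h1 := Encodable.encode_injective hlabg
      rw [if_pos hf0] at h1
      by_cases hg0 : ‖g - PP 0 g‖ ≤ ε
      · rw [if_pos hg0] at h1
        simp only [Prod.mk.injEq, true_and, and_true] at h1
        have h2 := hV3 (PP 0 g) (hPPid 0 g) hgV h1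
        have h3 : f - g = (f - PP 0 f) + (PP 0 f - PP 0 g) - (g - PP 0 g) := by abel
        rw [h3]
        refine (norm_sub_le _ _).trans ?_
        have h4 := norm_add_le (f - PP 0 f) (PP 0 f - PP 0 g)
        linarith
      · rw [if_neg hg0] at h1
        simp only [Prod.mk.injEq] at h1
        exact absurd h1.1 (Nat.succ_ne_zero _)
  · obtain ⟨hγ, hbig, hsmall⟩ := hp f hf hf0
    obtain ⟨n, hn⟩ : ∃ n, n = (p f).1 := ⟨_, rfl⟩
    obtain ⟨γ, hγ'⟩ : ∃ γ, γ = (p f).2 := ⟨_, rfl⟩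
    rw [← hn, ← hγ'] at hbig
    rw [← hn, ← hγ'] at hsmall
    rw [← hγ'] at hγ
    obtain ⟨V, hV1, hV2, hV3⟩ := hlb (γ + 1) (hκlim.add_one_lt hγ) (PP (γ + 1) f)
      (hPPid (γ + 1) f)
    -- witnesses for jumps
    have hw : ∀ α ∈ J f n, ∃ q : Q, δ (n + 1) - δ n <
        |f (S.r (S.Cl_G (T (α + 1))) q) - f (S.r (S.Cl_G (T α)) q)| := by
      intro α hα
      by_contra hcon
      push Not at hcon
      have h1 : ‖PP (α + 1) f - PP α f‖ ≤ δ (n + 1) - δ n := by
        rw [ContinuousMap.norm_le _ (sub_pos.mpr (hδ (Nat.lt_succ_self n))).le]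
        intro q
        exact hcon q
      exact absurd hα (not_lt.mpr h1)
    have hQne : Nonempty Q := by
      have h1 : #A ≠ 0 := (Cardinal.aleph0_pos.trans hunc).ne'
      obtain ⟨a⟩ := Cardinal.mk_ne_zero_iff.mp h1
      exact ⟨a.1⟩
    choose! w hw using hw
    let V₁ : Set (Q → ℝ) := (fun h : Q → ℝ => h ∘ S.r (S.Cl_G (T (γ + 1)))) ⁻¹' V
    let V₂ : Set (Q → ℝ) := ⋂ α ∈ J f n, {h : Q → ℝ | δ (n + 1) - δ n <
        |h (S.r (S.Cl_G (T (α + 1))) (w α)) - h (S.r (S.Cl_G (T α)) (w α))|}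
    have hV₂ : IsOpen V₂ := by
      apply (hfin f n hf).isOpen_biInter
      intro α hα
      apply isOpen_lt continuous_const
      fun_prop
    have hV₁ : IsOpen V₁ := by
      apply hV1.preimage
      fun_prop
    have hJgap : ∀ g : C(Q, ℝ), ∀ m β, δ (m + 1) < ‖g - PP β g‖ →
        (∀ γ', β < γ' → ‖g - PP γ' g‖ ≤ δ m) → β ∈ J g m := by
      intro g m β h1 h2
      show δ (m + 1) - δ m < ‖PP (β + 1) g - PP β g‖
      have h3 := h2 (β + 1) (lt_add_one β)
      have h4 : g - PP β g = (g - PP (β + 1) g) + (PP (β + 1) g - PP β g) := by abel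
      have h5 := norm_add_le (g - PP (β + 1) g) (PP (β + 1) g - PP β g)
      rw [← h4] at h5
      linarith
    refine ⟨V₁ ∩ V₂, hV₁.inter hV₂, ⟨hV2, ?_⟩, ?_⟩
    · apply Set.mem_iInter₂.mpr
      intro α hα
      exact hw α hα
    · rintro g hg ⟨hgV1, hgV2⟩ hlabg
      have h1 := Encodable.encode_injective hlabg
      rw [if_neg hf0] at h1
      by_cases hg0 : ‖g - PP 0 g‖ ≤ ε
      · rw [if_pos hg0] at h1
        simp only [Prod.mk.injEq] at h1
        exact absurd h1.1.symm (Nat.succ_ne_zero _)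
      · rw [if_neg hg0] at h1
        simp only [Prod.mk.injEq, Nat.add_right_cancel_iff] at h1
        rw [← hn, ← hγ'] at h1
        obtain ⟨h1, h2, h3, h4⟩ := h1
        obtain ⟨hγg, hbigg, hsmallg⟩ := hp g hg hg0
        rw [h1] at hbigg hsmallg h3 h4
        have hsub : J f n ⊆ J g n := by
          intro α hα
          have h5 := Set.mem_iInter₂.mp hgV2 α hα
          show δ (n + 1) - δ n < ‖PP (α + 1) g - PP α g‖
          refine lt_of_lt_of_le h5 ?_
          exact ContinuousMap.norm_coe_le_norm (PP (α + 1) g - PP α g) (w α)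
        have hJ : J f n = J g n := Set.eq_of_subset_of_ncard_le hsub h3.le (hfin g n hg)
        rw [← hJ] at h4
        have hγf : γ ∈ J f n := hJgap f n γ hbig hsmall
        have hγg' : (p g).2 ∈ J f n := by
          rw [hJ]; exact hJgap g n _ hbigg hsmallg
        have hγeq : (p g).2 = γ := eq_of_card_lt (hfin f n hf) hγg' hγf h4
        rw [hγeq] at h2 hsmallg
        have h6 := hV3 (PP (γ + 1) g) (hPPid (γ + 1) g) hgV1 h2
        have h7 := (hsmall (γ + 1) (lt_add_one γ)).trans (hδε n)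
        have h8 := (hsmallg (γ + 1) (lt_add_one γ)).trans (hδε n)
        have h9 : f - g = (f - PP (γ + 1) f) + (PP (γ + 1) f - PP (γ + 1) g)
          - (g - PP (γ + 1) g) := by abel
        rw [h9]
        refine (norm_sub_le _ _).trans ?_
        have h10 := norm_add_le (f - PP (γ + 1) f) (PP (γ + 1) f - PP (γ + 1) g)
        linarith

theorem sld_all : ∀ (c : Cardinal.{u}) (A : Set Q) (hA : S.Cl A), #A = c →
    SLD {f : C(Q, ℝ) | S.P hA f = f} := by
  intro c
  induction c using WellFoundedLT.induction with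
  | ind c ih =>
    intro A hA hc
    rcases le_or_gt #A ℵ₀ with h | h
    · apply SLD_of_separable
      apply S.separable_of_countable hA
      exact Cardinal.le_aleph0_iff_set_countable.mp h
    · apply S.sld_step hA h
      intro B hB hlt
      exact ih #B (hc ▸ hlt) B hB rfl

omit [CompactSpace Q] in
lemma Cl_univ : S.Cl Set.univ := fun _ _ => Set.subset_univ _

lemma P_univ (f : C(Q, ℝ)) : S.P S.Cl_univ f = f := by
  ext q
  rw [P_apply]
  congr 1
  apply S.ev_inj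
  funext x
  rw [S.r_spec]
  exact (S.yy_spec Set.univ x q (Set.mem_univ q)).symm

include S in
theorem sld_univ : SLD (Set.univ : Set C(Q, ℝ)) := by
  have h := S.sld_all _ Set.univ S.Cl_univ rfl
  have h2 : {f : C(Q, ℝ) | S.P S.Cl_univ f = f} = Set.univ := by
    ext f
    simp [S.P_univ f]
  rwa [h2] at h

end Sys

end Pool.Agent.Lib_helper63.CpK
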